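import Pool.Agent.Lib.MP_939afb_co.Even2

/-!
Minimum ranks of the powers of a bipartite graph without pendant vertices.
-/

set_option autoImplicit false

namespace Pool.Agent.Results.MP_939afb_co.BipartiteSteps

open MP939afb

/-- Let `G` be a finite bipartite graph without pendant vertices, `j ≥ 2` even and `i ≥ j`. Then
`mr (G ^ i) ≤ mr (G ^ j)`. -/
theorem result {V : Type*} [Fintype V] (G : SimpleGraph V) (hb : G.IsBipartite)
    (hG : ∀ v w : V, ¬ ∀ x, G.Adj v x ↔ x = w)
    (i j : ℕ) (hj : Even j) (h2 : 2 ≤ j) (hij : j ≤ i) :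
    mr (power G i) ≤ mr (power G j) := by
  have hpend1 : ∀ v w, G.Adj v w → ∃ w', w' ≠ w ∧ G.Adj v w' := by
    intro v w hv
    by_contra hc
    push Not at hc
    refine hG v w fun x => ⟨fun h => ?_, fun h => h ▸ hv⟩
    by_contra hx
    exact hc x hx h
  have hpend : ∀ u v w, u ≠ v → G.Adj u w → G.Adj v w →
      ∃ w', w' ≠ w ∧ (G.Adj u w' ∨ G.Adj v w') := by
    intro u v w _ hu _
    obtain ⟨w', h1, h3⟩ := hpend1 u w hu
    exact ⟨w', h1, Or.inl h3⟩
  have heven : ∀ t, mr (power G (j + 2 * t)) ≤ mr (power G j) := by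
    intro t
    induction t with
    | zero => simp
    | succ t ih =>
      refine le_trans ?_ ih
      obtain ⟨b, hb⟩ := hj
      have he : Even (j + 2 * t) := by
        rw [Nat.even_iff]
        omega
      have h0 : 0 < j + 2 * t := by omega
      exact step_two G hpend he h0
  obtain ⟨t, ht | ht⟩ : ∃ t, i = j + 2 * t ∨ i = j + 2 * t + 1 := ⟨(i - j) / 2, by omega⟩
  · rw [ht]
    exact heven t
  · rw [ht]
    refine le_trans ?_ (heven t)
    obtain ⟨c⟩ := hb
    have he : Even (j + 2 * t) := by
      obtain ⟨b, hb⟩ := hj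
      rw [Nat.even_iff]
      omega
    have h0 : 0 < j + 2 * t := by omega
    refine step_one G (fun v => decide (c v = 0)) ?_ hpend1 he h0
    intro u v h
    have h1 : c u ≠ c v := c.valid h
    simp only [ne_eq, decide_eq_decide]
    intro h3
    apply h1
    revert h3
    generalize c u = x
    generalize c v = y
    revert x y
    decide

end Pool.Agent.Results.MP_939afb_co.BipartiteSteps
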