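import Pool.Agent.Lib.MP_939afb_co.Cat5

/-!
# The power-monotone caterpillars

`MatS`, `mr`, `power` and `PowerMonotone` are defined in `Pool.Agent.Lib.MP_939afb_co.Core`,
`IsCaterpillar` in `Pool.Agent.Lib.MP_939afb_co.Cat3`.
-/

namespace Pool.Agent.Results.MP_939afb_co.Caterpillars

open MP939afb

/-- A caterpillar with at least two vertices is power-monotone if and only if it is not a
star. -/
theorem result {V : Type*} [Fintype V] [Nontrivial V] (G : SimpleGraph V)
    (hG : IsCaterpillar G) :
    PowerMonotone G ↔ ¬ ∃ x : V, ∀ v : V, v ≠ x → G.Adj x v :=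
  caterpillar_iff hG

end Pool.Agent.Results.MP_939afb_co.Caterpillars
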