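import Pool.Agent.Lib.MP_939afb_co.Six

/-!
# Every even step fails for trees, with unbounded defect

`MatS`, `mr` and `power` are defined in `Pool.Agent.Lib.MP_939afb_co.Core`.
-/

namespace Pool.Agent.Results.MP_939afb_co.EvenStepsFail

open MP939afb

/-- For all `m, k ≥ 1` there is a tree `T` with `mr (T^(2m)) ≤ 5k` and
`mr (T^(2m+1)) ≥ 6k`.  So for every even `j ≥ 2` the inequality `mr (T^j) ≥ mr (T^(j+1))`
fails for trees, and `mr (T^(j+1)) - mr (T^j)` is unbounded. -/
theorem result (m k : ℕ) (hm : 1 ≤ m) (hk : 1 ≤ k) :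
    ∃ (V : Type) (_ : Fintype V) (T : SimpleGraph V), T.IsTree ∧
      mr (power T (2 * m)) ≤ 5 * k ∧ 6 * k ≤ mr (power T (2 * m + 1)) :=
  even_steps_fail m k hm hk

end Pool.Agent.Results.MP_939afb_co.EvenStepsFail
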