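import Pool.Agent.Lib.MP_939afb_co.Small
import Pool.Agent.Lib.MP_939afb_co.Six

/-!
# The least diameter of a tree that is not power-monotone

`MatS`, `mr`, `power` and `PowerMonotone` are defined in `Pool.Agent.Lib.MP_939afb_co.Core`.
-/

namespace Pool.Agent.Results.MP_939afb_co.SmallDiameter

open MP939afb

/-- Among the numbers `d ≥ 3`, the least one that is the diameter of a tree which is not
power-monotone is `6`: every tree of diameter `3`, `4` or `5` is power-monotone, and some tree of
diameter `6` is not. -/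
theorem result : IsLeast {d : ℕ | 3 ≤ d ∧ ∃ (V : Type) (_ : Fintype V) (T : SimpleGraph V),
    T.IsTree ∧ T.diam = d ∧ ¬ PowerMonotone T} 6 := by
  refine ⟨⟨by norm_num, ?_⟩, ?_⟩
  · obtain ⟨V, hV, T, h1, h2, h3⟩ := st6
    exact ⟨V, hV, T, h1, h2, fun h => absurd (h 2 (by norm_num)) (not_le.mpr h3)⟩
  · rintro d ⟨h3, V, hV, T, hT, hd, hn⟩
    by_contra h
    exact hn (Small.small_diameter hT (by omega) (by omega))

end Pool.Agent.Results.MP_939afb_co.SmallDiameter
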